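import Mathlib

/-!
# MP_ec11dd_gt: spheres in the rational elliptic surface `E(1)`

`E(1) = CP^2 # 9 (-CP^2)`.  In the basis `h, e_1, ..., e_9` of `H_2(E(1); Z)` the intersection form is `form`, the fibre
class is `f = 3 h - e_1 - ... - e_9` and the section class is `s = e_9`.  We show that every class `a` with `a . f = 1` or
`a . f = -1` and of negative square `-(2 k + 1)` is carried by an isometry of the lattice to `k h - (k + 1) e_1`; this
applies to `a = k f - s` (for every `k >= 0`).
-/

set_option autoImplicit false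

namespace Pool.Agent.Results.MP_ec11dd_gt.RationalElliptic

/-- The intersection form of `E(1)` in the basis `h, e_1, ..., e_9`. -/
def form (x y : Fin 10 → ℤ) : ℤ := x 0 * y 0 - ∑ i : Fin 9, x i.succ * y i.succ

/-- The fibre class `3 h - e_1 - ... - e_9`. -/
def fibre : Fin 10 → ℤ := ![3, -1, -1, -1, -1, -1, -1, -1, -1, -1]

/-- The class `k h - (k + 1) e_1`. -/
def target (k : ℤ) : Fin 10 → ℤ := ![k, -(k + 1), 0, 0, 0, 0, 0, 0, 0, 0]

/-- Isometries of the lattice. -/
def IsIsometry (g : (Fin 10 → ℤ) ≃ₗ[ℤ] (Fin 10 → ℤ)) : Prop := ∀ x y, form (g x) (g y) = form x y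

theorem form_comm (x y : Fin 10 → ℤ) : form x y = form y x := by
  simp only [form, mul_comm]

theorem form_add_left (x y z : Fin 10 → ℤ) : form (x + y) z = form x z + form y z := by
  simp only [form, Pi.add_apply, add_mul, Finset.sum_add_distrib]; ring

theorem form_smul_left (c : ℤ) (x z : Fin 10 → ℤ) : form (c • x) z = c * form x z := by
  simp only [form, Pi.smul_apply, smul_eq_mul, mul_assoc, mul_sub, Finset.mul_sum]

theorem form_add_right (x y z : Fin 10 → ℤ) : form z (x + y) = form z x + form z y := by
  rw [form_comm, form_add_left, form_comm x, form_comm y]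

theorem form_smul_right (c : ℤ) (x z : Fin 10 → ℤ) : form z (c • x) = c * form z x := by
  rw [form_comm, form_smul_left, form_comm x]

theorem form_neg_left (x z : Fin 10 → ℤ) : form (-x) z = - form x z := by
  simpa using form_smul_left (-1) x z

theorem form_neg_right (x z : Fin 10 → ℤ) : form z (-x) = - form z x := by
  simpa using form_smul_right (-1) x z

/-- The Eichler map. -/
def eich (u z : Fin 10 → ℤ) (q : ℤ) : (Fin 10 → ℤ) →ₗ[ℤ] (Fin 10 → ℤ) where
  toFun y := y + form y u • z + (-(form y z) - q * form y u) • u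
  map_add' x y := by
    simp only [form_add_left]
    module
  map_smul' c x := by
    simp only [form_smul_left, RingHom.id_apply]
    module

theorem eich_apply (u z : Fin 10 → ℤ) (q : ℤ) (y : Fin 10 → ℤ) :
    eich u z q y = y + form y u • z + (-(form y z) - q * form y u) • u := rfl

theorem eich_inv (u z : Fin 10 → ℤ) (q : ℤ) (hu : form u u = 0) (huz : form u z = 0) (hz : form z z = 2 * q)
    (y : Fin 10 → ℤ) : eich u (-z) q (eich u z q y) = y := by
  have hzu : form z u = 0 := by rw [form_comm]; exact huz
  simp only [eich_apply, form_add_left, form_smul_left, form_neg_right, hu, huz, hzu, hz]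
  module

/-- The Eichler isometry. -/
def eichEquiv (u z : Fin 10 → ℤ) (q : ℤ) (hu : form u u = 0) (huz : form u z = 0) (hz : form z z = 2 * q) :
    (Fin 10 → ℤ) ≃ₗ[ℤ] (Fin 10 → ℤ) :=
  LinearEquiv.ofLinearMap (eich u z q) (eich u (-z) q)
    (by
      ext1 y
      have h := eich_inv u (-z) q hu (by rw [form_neg_right, huz, neg_zero])
        (by rw [form_neg_left, form_neg_right, neg_neg, hz])
      rw [neg_neg] at h
      ext j
      simp [h])
    (by
      ext1 y
      have h := eich_inv u z q hu huz hz
      ext j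
      simp [h])

theorem eichEquiv_apply (u z : Fin 10 → ℤ) (q : ℤ) (hu : form u u = 0) (huz : form u z = 0)
    (hz : form z z = 2 * q) (y : Fin 10 → ℤ) : eichEquiv u z q hu huz hz y = eich u z q y := rfl

theorem eich_isometry (u z : Fin 10 → ℤ) (q : ℤ) (hu : form u u = 0) (huz : form u z = 0)
    (hz : form z z = 2 * q) : IsIsometry (eichEquiv u z q hu huz hz) := by
  intro x y
  have hzu : form z u = 0 := by rw [form_comm]; exact huz
  simp only [eichEquiv_apply, eich_apply, form_add_left, form_smul_left, form_add_right, form_smul_right, hu, huz,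
    hzu, hz]
  rw [form_comm u y, form_comm z y]
  ring

theorem fibre_sq : form fibre fibre = 0 := by decide

/-- Vectors of the same square and of the same product `e = 1` or `e = -1` with the fibre are equivalent. -/
theorem same_orbit (a b : Fin 10 → ℤ) (e : ℤ) (he : e * e = 1) (ha : form a fibre = e) (hb : form b fibre = e)
    (hab : form a a = form b b) : ∃ g, IsIsometry g ∧ g a = b := by
  have h1 : form fibre (e • (b + -a)) = 0 := by
    rw [form_smul_right, form_add_right, form_neg_right, form_comm fibre b, form_comm fibre a, ha, hb]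
    ring
  have h2 : form (e • (b + -a)) (e • (b + -a)) = 2 * (form a a - form a b) := by
    simp only [form_smul_right, form_add_right, form_neg_right, form_smul_left, form_add_left, form_neg_left]
    rw [form_comm b a, ← hab]
    linear_combination (2 * form a a - 2 * form a b) * he
  refine ⟨eichEquiv fibre (e • (b + -a)) (form a a - form a b) fibre_sq h1 h2, eich_isometry _ _ _ _ _ _, ?_⟩
  rw [eichEquiv_apply, eich_apply, ha, form_smul_right, form_add_right, form_neg_right]
  have h3 : (-(e * (form a b + -form a a)) - (form a a - form a b) * e) = 0 := by ring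
  rw [h3, zero_smul, add_zero, smul_smul, he, one_smul]
  abel

theorem exists_z (N : ℕ) (hN : Odd N) :
    ∃ (z : Fin 8 → ℤ) (w : ℤ), ∑ i, z i = 2 * w ∧ ∑ i, (z i * z i + z i) = 2 * N - 2 := by
  obtain ⟨a, b, c, d, h⟩ := Nat.sum_four_squares N
  have hodd : Odd (a + b + c + d) := by
    rw [← h] at hN
    have : Odd (a ^ 2 + b ^ 2 + c ^ 2 + d ^ 2) ↔ Odd (a + b + c + d) := by
      have h2 : ∀ x : ℕ, Odd (x ^ 2) ↔ Odd x := fun x => by rw [Nat.odd_pow_iff (by norm_num)]
      simp [parity_simps, h2]
    exact this.mp hN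
  obtain ⟨m, hm⟩ := hodd
  have hm' : (a : ℤ) = 2 * m + 1 - b - c - d := by omega
  have hN' : (N : ℤ) = a ^ 2 + b ^ 2 + c ^ 2 + d ^ 2 := by exact_mod_cast h.symm
  refine ⟨![m, m - d, m - c, m - c - d, m - b, m - b - d, m - b - c, m - b - c - d], 4 * m - 2 * (b + c + d), ?_, ?_⟩
  · simp [Fin.sum_univ_succ]
    ring
  · rw [hN', hm']
    simp [Fin.sum_univ_succ]
    ring

/-- For odd `N` there is an isometry carrying the fibre to a vector `(2N+1, -(2N-1), ...)`. -/
theorem exists_char (N : ℕ) (hN : Odd N) : ∃ g, IsIsometry g ∧ g fibre 0 = 2 * N + 1 ∧ g fibre 1 = -(2 * N - 1) := by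
  obtain ⟨z, w, h1, h2⟩ := exists_z N hN
  have hs : ∑ i, z i * z i = 2 * (N - 1 - w) := by
    rw [Finset.sum_add_distrib, h1] at h2
    linarith
  set u : Fin 10 → ℤ := ![1, -1, 0, 0, 0, 0, 0, 0, 0, 0] with hu
  set Z : Fin 10 → ℤ := Fin.cons 0 (Fin.cons 0 fun i => - z i) with hZ
  have huu : form u u = 0 := by rw [hu]; decide
  have huZ : form u Z = 0 := by
    simp [form, hu, hZ, Fin.sum_univ_succ]
  have hZZ : form Z Z = 2 * (-(N - 1 - w)) := by
    have : form Z Z = - ∑ i, z i * z i := by
      simp [form, hZ, Fin.sum_univ_succ]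
    rw [this, hs]; ring
  have hfu : form fibre u = 2 := by rw [hu]; decide
  have hfZ : form fibre Z = - (2 * w) := by
    rw [← h1]
    simp [form, hZ, fibre, Fin.sum_univ_succ]
    try ring
  have hZ0 : Z 0 = 0 := rfl
  have hZ1 : Z 1 = 0 := rfl
  have hu0 : u 0 = 1 := rfl
  have hu1 : u 1 = -1 := rfl
  have hf0 : fibre 0 = 3 := rfl
  have hf1 : fibre 1 = -1 := rfl
  refine ⟨eichEquiv u Z _ huu huZ hZZ, eich_isometry _ _ _ _ _ _, ?_, ?_⟩
  · rw [eichEquiv_apply, eich_apply, hfu, hfZ]
    simp only [Pi.add_apply, Pi.smul_apply, smul_eq_mul, hZ0, hu0, hf0]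
    ring
  · rw [eichEquiv_apply, eich_apply, hfu, hfZ]
    simp only [Pi.add_apply, Pi.smul_apply, smul_eq_mul, hZ1, hu1, hf1]
    ring

theorem form_target (k : ℤ) (y : Fin 10 → ℤ) : form (target k) y = k * y 0 + (k + 1) * y 1 := by
  simp [form, target, Fin.sum_univ_succ]
  ring

/-- Every class `a` of `H_2(E(1); Z)` with `a . f = 1` or `a . f = -1` and `a . a = -(2k+1)`, for instance `k f - s`, is
carried to `k h - (k+1) e_1` by an isometry of the intersection form. -/
theorem result (k : ℕ) (a : Fin 10 → ℤ) (ha : form a fibre = 1 ∨ form a fibre = -1)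
    (hk : form a a = -(2 * k + 1)) :
    ∃ g : (Fin 10 → ℤ) ≃ₗ[ℤ] (Fin 10 → ℤ), (∀ x y, form (g x) (g y) = form x y) ∧ g a = target k := by
  -- an isometry G with target . G f = 1 or -1
  have hG : ∃ G, IsIsometry G ∧ form (target k) (G fibre) = form a fibre := by
    have key : ∃ G, IsIsometry G ∧ (form (target k) (G fibre) = 1 ∨ form (target k) (G fibre) = -1) := by
      rcases Nat.even_or_odd k with he | ho
      · obtain ⟨G, h1, h2, h3⟩ := exists_char (k + 1) he.add_one
        refine ⟨G, h1, Or.inr ?_⟩
        rw [form_target, h2, h3]; push_cast; ring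
      · obtain ⟨G, h1, h2, h3⟩ := exists_char k ho
        refine ⟨G, h1, Or.inl ?_⟩
        rw [form_target, h2, h3]; push_cast; ring
    obtain ⟨G, h1, h2⟩ := key
    by_cases h : form (target k) (G fibre) = form a fibre
    · exact ⟨G, h1, h⟩
    · refine ⟨G.trans (LinearEquiv.neg ℤ), fun x y => ?_, ?_⟩
      · simp only [LinearEquiv.trans_apply, LinearEquiv.neg_apply, form_neg_left, form_neg_right, neg_neg]
        exact h1 x y
      · simp only [LinearEquiv.trans_apply, LinearEquiv.neg_apply, form_neg_right]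
        rcases h2 with h2 | h2 <;> rcases ha with h3 | h3
        · exact absurd (h2.trans h3.symm) h
        · rw [h2, h3]
        · rw [h2, h3, neg_neg]
        · exact absurd (h2.trans h3.symm) h
  obtain ⟨G, h1, h2⟩ := hG
  have h3 : form (G.symm (target k)) fibre = form a fibre := by
    rw [← h1, LinearEquiv.apply_symm_apply, h2]
  have h4 : form a a = form (G.symm (target k)) (G.symm (target k)) := by
    rw [← h1 (G.symm (target k)), LinearEquiv.apply_symm_apply, form_target, hk]
    show -(2 * (k : ℤ) + 1) = k * k + (k + 1) * (-(k + 1))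
    ring
  obtain ⟨E, h5, h6⟩ := same_orbit a (G.symm (target k)) (form a fibre)
    (by rcases ha with h | h <;> rw [h] <;> norm_num) rfl h3 h4
  refine ⟨E.trans G, fun x y => ?_, ?_⟩
  · simp only [LinearEquiv.trans_apply]
    rw [h1, h5]
  · simp only [LinearEquiv.trans_apply]
    rw [h6, LinearEquiv.apply_symm_apply]

end Pool.Agent.Results.MP_ec11dd_gt.RationalElliptic
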